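import Pool.Agent.H798.BV.Stm4

set_option autoImplicit false

namespace Pool.Agent.H763.BV

open Pool.Agent.H798.BV

theorem t_EB : S_EB := by
  intro m l a δ η hm ha ha1 hδ hη h4 hl hs
  have hm0 : (0 : ℝ) < m := by exact_mod_cast hm
  set B : Finset (Fin m) := Finset.univ.filter (fun k => η * m < ‖l k‖) with hB
  set B' : Finset (Fin m) := Finset.univ.filter (fun k => ¬ η * m < ‖l k‖) with hB'
  have hsplit : ∀ f : Fin m → ℝ, ∑ k ∈ B, f k + ∑ k ∈ B', f k = ∑ k, f k := fun f =>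
    Finset.sum_filter_add_sum_filter_not _ _ _
  have hnorm : ∀ k, ‖(a : ℂ) * l k‖ = a * ‖l k‖ := by
    intro k
    rw [norm_mul, Complex.norm_real, Real.norm_eq_abs, abs_of_pos ha]
  have hcard : (B.card : ℝ) + (B'.card : ℝ) = m := by
    have h := hsplit (fun _ => 1)
    simpa using h
  -- the small indices
  have hb0 : 0 ≤ ∑ k ∈ B, ‖l k‖ := Finset.sum_nonneg fun k _ => norm_nonneg _
  have hb0' : 0 ≤ ∑ k ∈ B', ‖l k‖ := Finset.sum_nonneg fun k _ => norm_nonneg _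
  have hbm := hsplit (fun k => ‖l k‖)
  have hBcard : (B.card : ℝ) * (η * m) ≤ ∑ k ∈ B, ‖l k‖ := by
    rw [← nsmul_eq_mul]
    refine Finset.card_nsmul_le_sum _ _ _ fun k hk => ?_
    exact ((Finset.mem_filter.1 hk).2).le
  have hBη : (B.card : ℝ) * η ≤ 1 := by
    have h1 : (B.card : ℝ) * (η * m) ≤ m := by linarith
    have h2 : ((B.card : ℝ) * η) * m ≤ 1 * m := by linarith
    exact le_of_mul_le_mul_right h2 hm0
  have hBδ : 4 * (B.card : ℝ) ≤ δ * m := by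
    have h1 : (B.card : ℝ) * 4 ≤ (B.card : ℝ) * (η * δ * m) :=
      mul_le_mul_of_nonneg_left h4 (Nat.cast_nonneg _)
    have h2 : (B.card : ℝ) * (η * δ * m) ≤ δ * m := by
      have h3 : ((B.card : ℝ) * η) * (δ * m) ≤ 1 * (δ * m) :=
        mul_le_mul_of_nonneg_right hBη (by positivity)
      linarith
    linarith
  have e1 : a * (∑ k ∈ B, ‖l k‖) - B.card ≤ ∑ k ∈ B, ‖1 - (a : ℂ) * l k‖ := by
    have h1 : ∑ k ∈ B, (a * ‖l k‖ - 1) ≤ ∑ k ∈ B, ‖1 - (a : ℂ) * l k‖ := by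
      refine Finset.sum_le_sum fun k _ => ?_
      have h2 := norm_sub_norm_le ((a : ℂ) * l k) 1
      rw [norm_sub_rev, norm_one, hnorm] at h2
      exact h2
    rw [Finset.sum_sub_distrib, ← Finset.mul_sum] at h1
    simpa using h1
  have e2 : (B'.card : ℝ) - a * (∑ k ∈ B', l k).re ≤ ∑ k ∈ B', ‖1 - (a : ℂ) * l k‖ := by
    have h1 : ∑ k ∈ B', (1 - a * (l k).re) ≤ ∑ k ∈ B', ‖1 - (a : ℂ) * l k‖ := by
      refine Finset.sum_le_sum fun k _ => ?_
      have h2 := Complex.re_le_norm (1 - (a : ℂ) * l k)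
      simpa using h2
    rw [Finset.sum_sub_distrib, ← Finset.mul_sum] at h1
    rw [Complex.re_sum]
    simpa using h1
  have hsum := hsplit (fun k => ‖1 - (a : ℂ) * l k‖)
  have e3 : δ * m / 2 ≤ a * ((∑ k ∈ B', l k).re - ∑ k ∈ B, ‖l k‖) := by
    nlinarith
  have e4 : δ * m / 2 ≤ (∑ k ∈ B', l k).re - ∑ k ∈ B, ‖l k‖ := by
    have h1 : 0 < a * ((∑ k ∈ B', l k).re - ∑ k ∈ B, ‖l k‖) :=
      lt_of_lt_of_le (by positivity) e3
    have h2 : 0 < (∑ k ∈ B', l k).re - ∑ k ∈ B, ‖l k‖ := (mul_pos_iff_of_pos_left ha).1 h1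
    nlinarith
  refine ⟨?_, ?_, ?_⟩
  · have h1 : ∑ k : Fin m, (1 - a * ‖l k‖) ≤ ∑ k, ‖1 - (a : ℂ) * l k‖ := by
      refine Finset.sum_le_sum fun k _ => ?_
      have h2 := norm_sub_norm_le 1 ((a : ℂ) * l k)
      rw [norm_one, hnorm] at h2
      exact h2
    rw [Finset.sum_sub_distrib, ← Finset.mul_sum] at h1
    have h3 : ∑ _k : Fin m, (1 : ℝ) = m := by simp
    rw [h3] at h1
    have h4 : δ * m ≤ a * m := by nlinarith
    exact le_of_mul_le_mul_right h4 hm0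
  · have h1 : ((∑ k ∈ B', l k) / (m : ℂ)).re = (∑ k ∈ B', l k).re / m := by
      rw [← Complex.ofReal_natCast, Complex.div_ofReal_re]
    rw [h1, le_div_iff₀ hm0, add_mul, div_mul_cancel₀ _ hm0.ne']
    linarith
  · rw [norm_div, Complex.norm_natCast, div_le_one hm0]
    refine (norm_sum_le _ _).trans ?_
    linarith

end Pool.Agent.H763.BV
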